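import Mathlib

/-!
# MP_1dbd31_co: the exact value for `n = k + 3`

`ĝ(k+3, 2, k) = C(k+3, 2) - max(3, ⌊(k+3)/2⌋)` for every `k ≥ 1`.
-/

set_option autoImplicit false

namespace Pool.Agent.Results.MP_1dbd31_co.DifferenceThree

open Finset

open Classical in
/-- for all distinct `x, y`: `[xy ∈ E(G)] + |Γ(x) ∩ Γ(y)| ≥ k`. -/
def Valid {n : ℕ} (k : ℕ) (G : SimpleGraph (Fin n)) : Prop :=
  ∀ x y, x ≠ y → k ≤ (if G.Adj x y then 1 else 0) + (G.commonNeighbors x y).ncard

/-- `ĝ(n, 2, k)`. -/
noncomputable def ghat (n k : ℕ) : ℕ :=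
  sInf {e : ℕ | ∃ G : SimpleGraph (Fin n), Valid k G ∧ G.edgeSet.ncard = e}

/-! ### Proof -/

open Classical in
/-- the condition for the complement `H` -/
lemma valid_iff {n k : ℕ} (hn : n = k + 3) (H : SimpleGraph (Fin n)) :
    Valid k Hᶜ ↔ ∀ x y, x ≠ y →
      #{z | z = x ∨ z = y ∨ H.Adj x z ∨ H.Adj y z} ≤ if H.Adj x y then 3 else 4 := by
  refine forall_congr' fun x => forall_congr' fun y => ?_
  refine imp_congr_right fun hxy => ?_
  have h1 : (Hᶜ.commonNeighbors x y).ncard + #{z | z = x ∨ z = y ∨ H.Adj x z ∨ H.Adj y z} = n := by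
    have h2 := Finset.card_filter_add_card_filter_not (s := (univ : Finset (Fin n)))
      (fun z => z = x ∨ z = y ∨ H.Adj x z ∨ H.Adj y z)
    rw [Finset.card_univ, Fintype.card_fin] at h2
    have h3 : (Hᶜ.commonNeighbors x y).ncard =
        #(univ.filter fun z => ¬ (z = x ∨ z = y ∨ H.Adj x z ∨ H.Adj y z)) := by
      rw [← Set.ncard_coe_finset]
      congr 1
      ext z
      rw [SimpleGraph.mem_commonNeighbors, Finset.mem_coe, Finset.mem_filter,
        SimpleGraph.compl_adj, SimpleGraph.compl_adj]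
      constructor
      · rintro ⟨⟨h1, h2⟩, h3, h4⟩
        refine ⟨Finset.mem_univ _, ?_⟩
        rintro (e | e | e | e)
        · exact h1 e.symm
        · exact h3 e.symm
        · exact h2 e
        · exact h4 e
      · rintro ⟨-, h⟩
        exact ⟨⟨fun e => h (Or.inl e.symm), fun e => h (Or.inr (Or.inr (Or.inl e)))⟩,
          ⟨fun e => h (Or.inr (Or.inl e.symm)), fun e => h (Or.inr (Or.inr (Or.inr e)))⟩⟩
    rw [h3]
    omega
  have h4 : (Hᶜ.Adj x y) ↔ ¬ H.Adj x y := by simp [SimpleGraph.compl_adj, hxy]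
  by_cases h : H.Adj x y
  · rw [if_neg (by rw [h4]; exact not_not.2 h), if_pos h]
    omega
  · rw [if_pos (h4.2 h), if_neg h]
    omega

lemma edges_le {n k : ℕ} (hn : n = k + 3) (H : SimpleGraph (Fin n)) (hH : Valid k Hᶜ) :
    H.edgeSet.ncard ≤ max 3 (n / 2) := by
  classical
  rw [valid_iff hn] at hH
  have hs := H.sum_degrees_eq_twice_card_edges
  rw [← SimpleGraph.coe_edgeFinset, Set.ncard_coe_finset]
  have hdeg2 : ∀ x, H.degree x ≤ 2 := by
    intro x
    by_contra hc
    rw [← SimpleGraph.card_neighborFinset_eq_degree] at hc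
    obtain ⟨y, hy⟩ : (H.neighborFinset x).Nonempty := Finset.card_pos.1 (by omega)
    have hxy := (H.mem_neighborFinset x y).1 hy
    have h1 := hH x y hxy.ne
    rw [if_pos hxy] at h1
    have h2 : insert x (H.neighborFinset x) ⊆
        univ.filter fun z => z = x ∨ z = y ∨ H.Adj x z ∨ H.Adj y z := by
      intro z hz
      rw [Finset.mem_filter]
      refine ⟨Finset.mem_univ _, ?_⟩
      rcases Finset.mem_insert.1 hz with h | h
      · exact Or.inl h
      · exact Or.inr (Or.inr (Or.inl ((H.mem_neighborFinset x z).1 h)))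
    have h3 := Finset.card_le_card h2
    rw [Finset.card_insert_of_notMem (by simp)] at h3
    omega
  by_cases hall : ∀ x, H.degree x ≤ 1
  · have : ∑ v, H.degree v ≤ ∑ _v : Fin n, 1 := Finset.sum_le_sum fun v _ => hall v
    rw [hs] at this
    simp only [Finset.sum_const, Finset.card_univ, Fintype.card_fin, smul_eq_mul, mul_one] at this
    refine le_trans ?_ (le_max_right _ _)
    omega
  · push Not at hall
    obtain ⟨x, hx⟩ := hall
    have hx2 : (H.neighborFinset x).card = 2 := by
      rw [SimpleGraph.card_neighborFinset_eq_degree]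
      have := hdeg2 x
      omega
    obtain ⟨y, z, hyz, hN⟩ := Finset.card_eq_two.1 hx2
    have hxy : H.Adj x y := (H.mem_neighborFinset x y).1 (by rw [hN]; simp)
    have hxz : H.Adj x z := (H.mem_neighborFinset x z).1 (by rw [hN]; simp)
    have hx' : ∀ w, H.Adj x w → w = y ∨ w = z := by
      intro w hw
      have := (H.mem_neighborFinset x w).2 hw
      rw [hN] at this
      simpa using this
    -- no edge from `y` or `z` outside
    have hno : ∀ y z, H.Adj x y → H.Adj x z → y ≠ z → ∀ w, w ≠ x → w ≠ y → w ≠ z → ¬ H.Adj y w := by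
      intro y z hxy hxz hyz w hwx hwy hwz hyw
      have h1 := hH x y hxy.ne
      rw [if_pos hxy] at h1
      have h2 : ({x, y, z, w} : Finset (Fin n)) ⊆
          univ.filter fun v => v = x ∨ v = y ∨ H.Adj x v ∨ H.Adj y v := by
        intro v hv
        rw [Finset.mem_filter]
        refine ⟨Finset.mem_univ _, ?_⟩
        simp only [Finset.mem_insert, Finset.mem_singleton] at hv
        rcases hv with rfl | rfl | rfl | rfl
        · exact Or.inl rfl
        · exact Or.inr (Or.inl rfl)
        · exact Or.inr (Or.inr (Or.inl hxz))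
        · exact Or.inr (Or.inr (Or.inr hyw))
      have h3 := Finset.card_le_card h2
      rw [Finset.card_insert_of_notMem, Finset.card_insert_of_notMem,
        Finset.card_insert_of_notMem, Finset.card_singleton] at h3
      · omega
      · simpa using hwz.symm
      · simp only [Finset.mem_insert, Finset.mem_singleton, not_or]
        exact ⟨hyz, hwy.symm⟩
      · simp only [Finset.mem_insert, Finset.mem_singleton, not_or]
        exact ⟨hxy.ne, hxz.ne, hwx.symm⟩
    have hzero : ∀ w, w ≠ x → w ≠ y → w ≠ z → H.degree w = 0 := by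
      intro w hwx hwy hwz
      by_contra hc
      obtain ⟨v, hv⟩ : (H.neighborFinset w).Nonempty := by
        rw [← Finset.card_pos, SimpleGraph.card_neighborFinset_eq_degree]; omega
      have hwv := (H.mem_neighborFinset w v).1 hv
      have hvx : v ≠ x := by
        rintro rfl
        rcases hx' w hwv.symm with h | h
        · exact hwy h
        · exact hwz h
      have hvy : v ≠ y := by
        rintro rfl
        exact hno v z hxy hxz hyz w hwx hwy hwz hwv.symm
      have hvz : v ≠ z := by
        rintro rfl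
        exact hno v y hxz hxy hyz.symm w hwx hwz hwy hwv.symm
      have h1 := hH x w hwx.symm
      rw [if_neg (fun h => by rcases hx' w h with h | h; exacts [hwy h, hwz h])] at h1
      have h2 : ({x, w, y, z, v} : Finset (Fin n)) ⊆
          univ.filter fun u => u = x ∨ u = w ∨ H.Adj x u ∨ H.Adj w u := by
        intro u hu
        rw [Finset.mem_filter]
        refine ⟨Finset.mem_univ _, ?_⟩
        simp only [Finset.mem_insert, Finset.mem_singleton] at hu
        rcases hu with rfl | rfl | rfl | rfl | rfl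
        · exact Or.inl rfl
        · exact Or.inr (Or.inl rfl)
        · exact Or.inr (Or.inr (Or.inl hxy))
        · exact Or.inr (Or.inr (Or.inl hxz))
        · exact Or.inr (Or.inr (Or.inr hwv))
      have h3 := Finset.card_le_card h2
      rw [Finset.card_insert_of_notMem, Finset.card_insert_of_notMem, Finset.card_insert_of_notMem,
        Finset.card_insert_of_notMem, Finset.card_singleton] at h3
      · omega
      · simpa using hvz.symm
      · simp only [Finset.mem_insert, Finset.mem_singleton, not_or]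
        exact ⟨hyz, hvy.symm⟩
      · simp only [Finset.mem_insert, Finset.mem_singleton, not_or]
        exact ⟨hwy, hwz, hwv.ne⟩
      · simp only [Finset.mem_insert, Finset.mem_singleton, not_or]
        exact ⟨hwx.symm, hxy.ne, hxz.ne, hvx.symm⟩
    have h1 : ∑ v, H.degree v ≤ ∑ v, if v ∈ ({x, y, z} : Finset (Fin n)) then 2 else 0 := by
      refine Finset.sum_le_sum fun v _ => ?_
      split_ifs with hv
      · exact hdeg2 v
      · simp only [Finset.mem_insert, Finset.mem_singleton, not_or] at hv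
        rw [hzero v hv.1 hv.2.1 hv.2.2]
    rw [Finset.sum_ite_mem, Finset.univ_inter, Finset.sum_const, smul_eq_mul, hs] at h1
    have h2 : ({x, y, z} : Finset (Fin n)).card ≤ 3 := Finset.card_le_three
    refine le_trans ?_ (le_max_left _ _)
    omega

/-- the triangle -/
def tri (n : ℕ) : SimpleGraph (Fin n) where
  Adj x y := x ≠ y ∧ (x : ℕ) < 3 ∧ (y : ℕ) < 3
  symm := ⟨fun _ _ h => ⟨h.1.symm, h.2.2, h.2.1⟩⟩
  loopless := ⟨fun _ h => h.1 rfl⟩

/-- the matching -/
def mat (n : ℕ) : SimpleGraph (Fin n) where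
  Adj x y := x ≠ y ∧ (x : ℕ) / 2 = (y : ℕ) / 2
  symm := ⟨fun _ _ h => ⟨h.1.symm, h.2.symm⟩⟩
  loopless := ⟨fun _ h => h.1 rfl⟩

lemma tri_valid {n k : ℕ} (hn : n = k + 3) : Valid k (tri n)ᶜ := by
  classical
  rw [valid_iff hn]
  intro x y hxy
  have hS : #(univ.filter fun z : Fin n => (z : ℕ) < 3) ≤ 3 := by
    have h : Set.InjOn (fun z : Fin n => (z : ℕ)) (univ.filter fun z : Fin n => (z : ℕ) < 3) :=
      fun a _ b _ h => Fin.ext h
    rw [← Finset.card_image_of_injOn h]
    refine (Finset.card_le_card (t := Finset.range 3) ?_).trans (by simp)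
    intro i hi
    obtain ⟨z, hz, rfl⟩ := Finset.mem_image.1 hi
    exact Finset.mem_range.2 (Finset.mem_filter.1 hz).2
  by_cases hx : (x : ℕ) < 3
  · by_cases hy : (y : ℕ) < 3
    · rw [if_pos ⟨hxy, hx, hy⟩]
      refine (Finset.card_le_card ?_).trans hS
      intro z hz
      rw [Finset.mem_filter] at hz ⊢
      refine ⟨hz.1, ?_⟩
      rcases hz.2 with rfl | rfl | h | h
      · exact hx
      · exact hy
      · exact h.2.2
      · exact h.2.2
    · rw [if_neg fun h => hy h.2.2]
      refine (Finset.card_le_card (t := insert y (univ.filter fun z : Fin n => (z : ℕ) < 3)) ?_).trans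
        ((Finset.card_insert_le _ _).trans (by omega))
      intro z hz
      rw [Finset.mem_insert, Finset.mem_filter]
      rw [Finset.mem_filter] at hz
      rcases hz.2 with rfl | rfl | h | h
      · exact Or.inr ⟨Finset.mem_univ _, hx⟩
      · exact Or.inl rfl
      · exact Or.inr ⟨Finset.mem_univ _, h.2.2⟩
      · exact absurd h.2.1 hy
  · rw [if_neg fun h => hx h.2.1]
    by_cases hy : (y : ℕ) < 3
    · refine (Finset.card_le_card (t := insert x (univ.filter fun z : Fin n => (z : ℕ) < 3)) ?_).trans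
        ((Finset.card_insert_le _ _).trans (by omega))
      intro z hz
      rw [Finset.mem_insert, Finset.mem_filter]
      rw [Finset.mem_filter] at hz
      rcases hz.2 with rfl | rfl | h | h
      · exact Or.inl rfl
      · exact Or.inr ⟨Finset.mem_univ _, hy⟩
      · exact absurd h.2.1 hx
      · exact Or.inr ⟨Finset.mem_univ _, h.2.2⟩
    · refine (Finset.card_le_card (t := {x, y}) ?_).trans (Finset.card_le_two.trans (by norm_num))
      intro z hz
      rw [Finset.mem_filter] at hz
      simp only [Finset.mem_insert, Finset.mem_singleton]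
      rcases hz.2 with rfl | rfl | h | h
      · exact Or.inl rfl
      · exact Or.inr rfl
      · exact absurd h.2.1 hx
      · exact absurd h.2.1 hy

lemma mat_valid {n k : ℕ} (hn : n = k + 3) : Valid k (mat n)ᶜ := by
  classical
  rw [valid_iff hn]
  intro x y hxy
  have hS : ∀ c : ℕ, #(univ.filter fun z : Fin n => (z : ℕ) / 2 = c) ≤ 2 := by
    intro c
    have h : Set.InjOn (fun z : Fin n => (z : ℕ)) (univ.filter fun z : Fin n => (z : ℕ) / 2 = c) :=
      fun a _ b _ h => Fin.ext h
    rw [← Finset.card_image_of_injOn h]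
    refine (Finset.card_le_card (t := {2 * c, 2 * c + 1}) ?_).trans Finset.card_le_two
    intro i hi
    obtain ⟨z, hz, rfl⟩ := Finset.mem_image.1 hi
    have h2 := (Finset.mem_filter.1 hz).2
    simp only [Finset.mem_insert, Finset.mem_singleton]
    omega
  have hsub : (univ.filter fun z => z = x ∨ z = y ∨ (mat n).Adj x z ∨ (mat n).Adj y z) ⊆
      (univ.filter fun z : Fin n => (z : ℕ) / 2 = (x : ℕ) / 2) ∪
        (univ.filter fun z : Fin n => (z : ℕ) / 2 = (y : ℕ) / 2) := by
    intro z hz
    rw [Finset.mem_filter] at hz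
    rw [Finset.mem_union, Finset.mem_filter, Finset.mem_filter]
    rcases hz.2 with rfl | rfl | h | h
    · exact Or.inl ⟨Finset.mem_univ _, rfl⟩
    · exact Or.inr ⟨Finset.mem_univ _, rfl⟩
    · exact Or.inl ⟨Finset.mem_univ _, h.2.symm⟩
    · exact Or.inr ⟨Finset.mem_univ _, h.2.symm⟩
  have hc := Finset.card_le_card hsub
  have hu := Finset.card_union_le (univ.filter fun z : Fin n => (z : ℕ) / 2 = (x : ℕ) / 2)
    (univ.filter fun z : Fin n => (z : ℕ) / 2 = (y : ℕ) / 2)
  have h1 := hS ((x : ℕ) / 2)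
  have h2 := hS ((y : ℕ) / 2)
  split_ifs with h
  · have h' : (x : ℕ) / 2 = (y : ℕ) / 2 := h.2
    rw [h', Finset.union_self] at hc
    omega
  · omega

lemma tri_edges {n : ℕ} (hn : 3 ≤ n) : 3 ≤ (tri n).edgeSet.ncard := by
  classical
  let a : Fin n := ⟨0, by omega⟩
  let b : Fin n := ⟨1, by omega⟩
  let c : Fin n := ⟨2, by omega⟩
  have hab : a ≠ b := by simp [a, b, Fin.ext_iff]
  have hac : a ≠ c := by simp [a, c, Fin.ext_iff]
  have hbc : b ≠ c := by simp [b, c, Fin.ext_iff]
  have h : (({s(a, b), s(a, c), s(b, c)} : Finset (Sym2 (Fin n))) : Set (Sym2 (Fin n))) ⊆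
      (tri n).edgeSet := by
    intro e he
    simp only [Finset.coe_insert, Finset.coe_singleton, Set.mem_insert_iff,
      Set.mem_singleton_iff] at he
    rcases he with rfl | rfl | rfl
    · exact ⟨hab, by simp [a], by simp [b]⟩
    · exact ⟨hac, by simp [a], by simp [c]⟩
    · exact ⟨hbc, by simp [b], by simp [c]⟩
  have h2 := Set.ncard_le_ncard h (Set.toFinite _)
  rw [Set.ncard_coe_finset, Finset.card_insert_of_notMem, Finset.card_insert_of_notMem,
    Finset.card_singleton] at h2
  · exact h2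
  · simp [hab, hac, hbc, hab.symm, hac.symm, hbc.symm]
  · simp [hab, hac, hbc, hab.symm, hac.symm, hbc.symm]

lemma mat_edges {n : ℕ} : n / 2 ≤ (mat n).edgeSet.ncard := by
  classical
  let f : Fin (n / 2) → Sym2 (Fin n) := fun i => s(⟨2 * i, by omega⟩, ⟨2 * i + 1, by omega⟩)
  have hf : Function.Injective f := by
    intro i j h
    simp only [f, Sym2.eq_iff, Fin.mk.injEq] at h
    refine Fin.ext ?_
    omega
  have h : ((univ.image f : Finset (Sym2 (Fin n))) : Set (Sym2 (Fin n))) ⊆ (mat n).edgeSet := by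
    intro e he
    rw [Finset.mem_coe, Finset.mem_image] at he
    obtain ⟨i, -, rfl⟩ := he
    refine ⟨by simp [Fin.ext_iff], ?_⟩
    change (2 * (i : ℕ)) / 2 = (2 * (i : ℕ) + 1) / 2
    omega
  have h2 := Set.ncard_le_ncard h (Set.toFinite _)
  rw [Set.ncard_coe_finset, Finset.card_image_of_injective _ hf, Finset.card_univ,
    Fintype.card_fin] at h2
  exact h2

lemma compl_sum {n : ℕ} (H : SimpleGraph (Fin n)) :
    H.edgeSet.ncard + Hᶜ.edgeSet.ncard = n.choose 2 := by
  classical
  rw [← SimpleGraph.coe_edgeFinset, ← SimpleGraph.coe_edgeFinset, Set.ncard_coe_finset,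
    Set.ncard_coe_finset]
  have h3 : H.edgeFinset ∪ Hᶜ.edgeFinset = (⊤ : SimpleGraph (Fin n)).edgeFinset := by
    ext e
    simp only [Finset.mem_union, SimpleGraph.mem_edgeFinset]
    rw [← Set.mem_union, ← SimpleGraph.edgeSet_sup, sup_compl_eq_top]
  have h4 : Disjoint H.edgeFinset Hᶜ.edgeFinset := by
    rw [SimpleGraph.disjoint_edgeFinset]
    exact disjoint_compl_right
  rw [← Finset.card_union_of_disjoint h4, h3, SimpleGraph.card_edgeFinset_top_eq_card_choose_two,
    Fintype.card_fin]

/-- `ĝ(k+3, 2, k) = C(k+3, 2) - max(3, ⌊(k+3)/2⌋)` for every `k ≥ 1`. -/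
theorem result (k : ℕ) (hk : 1 ≤ k) :
    ghat (k + 3) k = (k + 3).choose 2 - max 3 ((k + 3) / 2) := by
  have hlow : ∀ e ∈ {e : ℕ | ∃ G : SimpleGraph (Fin (k + 3)), Valid k G ∧ G.edgeSet.ncard = e},
      (k + 3).choose 2 - max 3 ((k + 3) / 2) ≤ e := by
    rintro e ⟨G, hG, rfl⟩
    have h1 := edges_le rfl Gᶜ (by rwa [compl_compl])
    have h2 := compl_sum G
    omega
  have hex : ∃ G : SimpleGraph (Fin (k + 3)), Valid k G ∧
      G.edgeSet.ncard ≤ (k + 3).choose 2 - max 3 ((k + 3) / 2) := by
    rcases le_total ((k + 3) / 2) 3 with h | h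
    · refine ⟨_, tri_valid rfl, ?_⟩
      have h1 := tri_edges (n := k + 3) (by omega)
      have h2 := compl_sum (tri (k + 3))
      rw [max_eq_left h]
      omega
    · refine ⟨_, mat_valid rfl, ?_⟩
      have h1 := mat_edges (n := k + 3)
      have h2 := compl_sum (mat (k + 3))
      rw [max_eq_right h]
      omega
  obtain ⟨G, hG, hGe⟩ := hex
  have hmem : G.edgeSet.ncard ∈ {e : ℕ | ∃ G : SimpleGraph (Fin (k + 3)), Valid k G ∧
      G.edgeSet.ncard = e} := ⟨G, hG, rfl⟩
  refine le_antisymm ((Nat.sInf_le hmem).trans hGe) ?_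
  have hne : {e : ℕ | ∃ G : SimpleGraph (Fin (k + 3)), Valid k G ∧ G.edgeSet.ncard = e}.Nonempty :=
    ⟨_, G, hG, rfl⟩
  exact hlow _ (Nat.sInf_mem hne)

end Pool.Agent.Results.MP_1dbd31_co.DifferenceThree
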